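import Pool.Agent.T9h37.PP.Root
import Pool.Agent.T9h37.BI.Main

/-!
# Relations on the factors whose CM fields have degree two times a power of a prime number
-/

set_option autoImplicit false
set_option linter.unusedSectionVars false
set_option linter.unusedVariables false

namespace Pool.Agent.T9h37.PP

open NumberField Pool.Agent.H204R3.CM Pool.Agent.W547.KB Pool.Agent.W547.LD Pool.Agent.W547.HR
  Pool.Agent.W495.TA Module Pool.Agent.TH117.PO Pool.Agent.W976.TA Pool.Agent.W417.TA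
  Pool.Agent.TH117.BL Pool.Agent.W495.TC Pool.Agent.W495.TB Pool.Agent.TH117.F5 Pool.Agent.N202.QR
  Pool.Agent.W495.FM Pool.Agent.TH117.GN Pool.Agent.T9h37.BI
open scoped TensorProduct

noncomputable section

variable {L : Type} [Field L] [NumberField L] [IsCMField L] [IsGalois ℚ L]
variable {p : ℕ} [Fact p.Prime] {ν : PadicAlgCl p ≃+* ℂ} {j : L →+* ℂ}

/-- Coprime degrees and different imaginary quadratic subfields. -/
theorem bil_coprime (A A' : CMPair) (hA : BigA A j) (hA' : BigA A' j) {d n : ℕ} (hd : 0 < d)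
    {δ : A.E} (hδ : δ ^ 2 = -(d : A.E)) (hdeg : finrank ℚ A.E = 2 * n) (hn : Odd n)
    (hcop : Nat.Coprime n (finrank ℚ A'.E)) (hno : NoRoot d A'.E) (φ : A.E →+* L)
    (ψ : A'.E →+* L) : bil p ν j A A' φ ψ = 0 := by
  classical
  have hfin := finite_emb j A
  let _ : Fintype (A.E →+* L) := Fintype.ofFinite _
  have hfin' := finite_emb j A'
  let _ : Fintype (A'.E →+* L) := Fintype.ofFinite _
  have hset := setting j A (L := L)
  have hset' := setting j A' (L := L)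
  have hr : (φ δ) ^ 2 = -(d : L) := by rw [← map_pow, hδ, map_neg, map_natCast]
  have hT := half_root j A hd hr hδ
  obtain ⟨h, hh, hε⟩ : ∃ h : L ≃ₐ[ℚ] L, h • ψ = ψ ∧ rootChar hd hr h ≠ 1 := by
    by_contra hcon
    push Not at hcon
    obtain ⟨x, hx⟩ := mem_image ψ (φ δ) fun τ hτ => (rootChar_eq_one hd hr τ).1 (hcon τ hτ)
    apply hno x
    apply ψ.injective
    rw [map_pow, hx, hr, map_neg, map_natCast]
  obtain ⟨g, hg1, hg2⟩ := fix_conj hset ((Pool.Agent.W495.TA.card_emb hA).trans hdeg) hn hT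
    hset'.trans (by rw [Pool.Agent.W495.TA.card_emb hA']; exact hcop) φ ψ h hh hε
  have h3 := bil_smul (p := p) (ν := ν) (j := j) g φ ψ
  rw [hg1, hg2, bil_cc] at h3
  omega

variable {Z : RedAV p ν}

/-- The restriction of a relation to a block is a relation. -/
theorem block_rel' (hZ : Big Z.X j) {ι : Type} (b : Z.X.I → ι)
    (hb : ∀ i k, b i ≠ b k → ∀ (φ : (Z.X.factor i).E →+* L) (ψ : (Z.X.factor k).E →+* L),
      bil p ν j (Z.X.factor i) (Z.X.factor k) φ ψ = 0) {e : Emb Z → ℕ}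
    (he : IsRel Z e) (S : Set Z.X.I) (hS : ∀ i ∈ S, ∀ k ∉ S, b i ≠ b k) [DecidablePred (· ∈ S)] :
    IsRel Z fun w => if w.1 ∈ S then e w else 0 := by
  classical
  have hfin := Pool.Agent.W495.TB.finite_wt j hZ
  let _ : Fintype (Wt Z.X L) := Fintype.ofFinite _
  rw [isRel_iff hZ] at he ⊢
  let u : Wt Z.X L → ℤ := fun w => if w.1 ∈ S then (e (toEmb j Z w) : ℤ) else 0
  let v : Wt Z.X L → ℤ := fun w => if w.1 ∈ S then 0 else (e (toEmb j Z w) : ℤ)
  let F : (L ≃ₐ[ℚ] L) → ℤ := fun h => ∑ w : Wt Z.X L, u w * tw p ν j Z.X w h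
  let G : (L ≃ₐ[ℚ] L) → ℤ := fun h => ∑ w : Wt Z.X L, v w * tw p ν j Z.X w h
  have hFG : ∀ h, F h + G h = 0 := by
    intro h
    rw [← he h, ← Finset.sum_add_distrib]
    refine Finset.sum_congr rfl fun w _ => ?_
    change (if w.1 ∈ S then (e (toEmb j Z w) : ℤ) else 0) * _ +
      (if w.1 ∈ S then 0 else (e (toEmb j Z w) : ℤ)) * _ = _
    split_ifs <;> ring
  have horth : ∑ h, F h * G h = 0 := by
    have h1 : ∀ h, F h * G h = ∑ w : Wt Z.X L, ∑ w' : Wt Z.X L,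
        u w * v w' * (tw p ν j Z.X w h * tw p ν j Z.X w' h) := by
      intro h
      change (∑ w : Wt Z.X L, u w * tw p ν j Z.X w h) *
        (∑ w : Wt Z.X L, v w * tw p ν j Z.X w h) = _
      rw [Finset.sum_mul_sum]
      refine Finset.sum_congr rfl fun w _ => Finset.sum_congr rfl fun w' _ => ?_
      ring
    rw [Finset.sum_congr rfl fun h _ => h1 h, Finset.sum_comm]
    refine Finset.sum_eq_zero fun w _ => ?_
    rw [Finset.sum_comm]
    refine Finset.sum_eq_zero fun w' _ => ?_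
    rw [← Finset.mul_sum]
    by_cases hw : w.1 ∈ S
    · by_cases hw' : w'.1 ∈ S
      · have h2 : v w' = 0 := if_pos hw'
        rw [h2, mul_zero, zero_mul]
      · have h2 : ∑ h, tw p ν j Z.X w h * tw p ν j Z.X w' h = 0 :=
          hb w.1 w'.1 (hS w.1 hw w'.1 hw') w.2 w'.2
        rw [h2, mul_zero]
    · have h2 : u w = 0 := if_neg hw
      rw [h2, zero_mul, zero_mul]
  have hF : ∑ h, F h * F h = 0 := by
    have h1 : ∀ h, F h * F h = -(F h * G h) := by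
      intro h
      have h2 := hFG h
      have h3 : G h = -F h := by linarith
      rw [h3]
      ring
    rw [Finset.sum_congr rfl fun h _ => h1 h, Finset.sum_neg_distrib, horth, neg_zero]
  have hF0 : ∀ h, F h = 0 := by
    intro h
    have h1 := (Finset.sum_eq_zero_iff_of_nonneg fun σ _ => mul_self_nonneg _).1 hF h
      (Finset.mem_univ h)
    exact mul_self_eq_zero.1 h1
  intro h
  rw [← hF0 h]
  refine Finset.sum_congr rfl fun w _ => ?_
  change (((if w.1 ∈ S then e (toEmb j Z w) else 0 : ℕ)) : ℤ) * _ =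
    (if w.1 ∈ S then (e (toEmb j Z w) : ℤ) else 0) * _
  split_ifs <;> rfl

/-- The slopes and the valuation functions. -/
theorem slopes_tw (hZ : Big Z.X j) (w : Wt Z.X L) {m : ℕ}
    {s : ((Z.X.factor w.1).E →+* ℂ) → ℤ} (hs : IsSlopes ν Z.a m (Z.π w.1) s)
    (σ : L ≃ₐ[ℚ] L) : (Nat.card (Dec p ν j) : ℤ) * s (j.comp (σ • w.2)) =
      (m : ℤ) * tw p ν j Z.X w σ := by
  have h1 := norm_pow_two_card hZ w σ
  have h2 := hs.2 (j.comp (σ • w.2))
  have h3 : (j.comp (σ • w.2)) (Z.π w.1) = j (σ (w.2 (Z.π w.1))) := rfl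
  rw [h3] at h2
  have h4 : ‖(p : PadicAlgCl p)‖ ^ (((Z.a : ℤ) * ((Nat.card (Dec p ν j) : ℤ) + tw p ν j Z.X w σ)) *
      (m : ℤ)) = ‖(p : PadicAlgCl p)‖ ^ (((Z.a : ℤ) * ((m : ℤ) + s (j.comp (σ • w.2)))) *
        (Nat.card (Dec p ν j) : ℤ)) := by
    rw [zpow_mul _ ((Z.a : ℤ) * ((Nat.card (Dec p ν j) : ℤ) + tw p ν j Z.X w σ)), ← h1,
      zpow_mul _ ((Z.a : ℤ) * ((m : ℤ) + s (j.comp (σ • w.2)))), ← h2, ← zpow_mul, ← zpow_mul]
    congr 1
    ring
  have h5 := zpow_right_injective₀ norm_p_pos (Pool.Agent.W495.TA.norm_p_lt (p := p)).ne h4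
  have ha : (Z.a : ℤ) ≠ 0 := by exact_mod_cast Z.pos.ne'
  have h6 : (Z.a : ℤ) * ((Nat.card (Dec p ν j) : ℤ) * s (j.comp (σ • w.2))) =
      (Z.a : ℤ) * ((m : ℤ) * tw p ν j Z.X w σ) := by
    have h7 : (Z.a : ℤ) * ((Nat.card (Dec p ν j) : ℤ) + tw p ν j Z.X w σ) * (m : ℤ) =
        (Z.a : ℤ) * ((m : ℤ) + s (j.comp (σ • w.2))) * (Nat.card (Dec p ν j) : ℤ) := h5
    linarith
  exact mul_left_cancel₀ ha h6

/-- The odd parts of the exponents of a relation. -/
theorem odd_rel (hZ : Big Z.X j) [Fintype (Wt Z.X L)] {e : Emb Z → ℕ} (he : IsRel Z e)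
    (σ : L ≃ₐ[ℚ] L) : ∑ w : Wt Z.X L, oddE e (toEmb j Z w) * tw p ν j Z.X w σ = 0 := by
  have h1 := (isRel_iff hZ e).1 he σ
  have h2 : ∑ w : Wt Z.X L, (e (conjE (toEmb j Z w)) : ℤ) * tw p ν j Z.X w σ = 0 := by
    rw [← neg_eq_zero, ← h1, ← Finset.sum_neg_distrib]
    have hcc : ∀ w : Wt Z.X L, cw Z (cw Z w) = w := by
      rintro ⟨i, φ⟩
      change (⟨i, cc L • cc L • φ⟩ : Wt Z.X L) = ⟨i, φ⟩
      rw [← mul_smul, cc_cc, one_smul]
    refine Fintype.sum_equiv (Function.Involutive.toPerm (cw Z) hcc) _ _ fun w => ?_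
    change _ = (e (toEmb j Z (cw Z w)) : ℤ) * tw p ν j Z.X (cw Z w) σ
    rw [toEmb_cw, tw_cw, Pi.neg_apply]
    ring
  have h3 : ∑ w : Wt Z.X L, oddE e (toEmb j Z w) * tw p ν j Z.X w σ =
      ∑ w : Wt Z.X L, (e (toEmb j Z w) : ℤ) * tw p ν j Z.X w σ -
        ∑ w : Wt Z.X L, (e (conjE (toEmb j Z w)) : ℤ) * tw p ν j Z.X w σ := by
    rw [← Finset.sum_sub_distrib]
    refine Finset.sum_congr rfl fun w _ => ?_
    unfold oddE
    ring
  rw [h3, h1, h2, sub_zero]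

/-- The odd part of the exponents is zero outside of the support. -/
theorem odd_supp {S : Set Z.X.I} {e : Emb Z → ℕ} (hs : ∀ w, e w ≠ 0 → w.1 ∈ S) {w : Emb Z}
    (hw : w.1 ∉ S) : oddE e w = 0 := by
  have h1 : e w = 0 := by
    by_contra h
    exact hw (hs w h)
  have h2 : e (conjE w) = 0 := by
    by_contra h
    exact hw (hs (conjE w) h)
  unfold oddE
  rw [h1, h2]
  rfl

/-- Relations on one factor with a CM field of degree a power of two. -/
theorem two_on (hZ : Big Z.X j) (i : Z.X.I) (hi : IsTwoType ν Z.a (Z.π i)) (e : Emb Z → ℕ)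
    (he : IsRel Z e) (hs : ∀ w, e w ≠ 0 → w.1 ∈ ({i} : Set Z.X.I)) :
    (fun w => (e w : ℤ)) ∈ Elem Z := by
  classical
  obtain ⟨n, m, s, hdeg, hsl, hodd⟩ := hi
  have hfin' := finite_emb j (Z.X.factor i)
  let _ : Fintype ((Z.X.factor i).E →+* L) := Fintype.ofFinite _
  have hfin := Pool.Agent.W495.TB.finite_wt j hZ
  let _ : Fintype (Wt Z.X L) := Fintype.ofFinite _
  have hset := setting j (Z.X.factor i) (L := L)
  let X := (Z.X.factor i).E →+* L
  let t : X → ℤ := fun φ => s (j.comp φ)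
  let E : X → Emb Z := fun φ => toEmb j Z ⟨i, φ⟩
  have hEc : ∀ φ, conjE (E φ) = E (cc L • φ) := fun φ =>
    (toEmb_cw (j := j) (⟨i, φ⟩ : Wt Z.X L)).symm
  have hD : (Nat.card (Dec p ν j) : ℤ) ≠ 0 := by
    have : 0 < Nat.card (Dec p ν j) := Nat.card_pos
    exact_mod_cast this.ne'
  have hm : (m : ℤ) ≠ 0 := by exact_mod_cast hsl.1.ne'
  have hsl' : ∀ (φ : X) (σ : L ≃ₐ[ℚ] L), (Nat.card (Dec p ν j) : ℤ) * t (σ • φ) =
      (m : ℤ) * tw p ν j Z.X ⟨i, φ⟩ σ := fun φ σ => slopes_tw hZ ⟨i, φ⟩ hsl σ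
  have htc : ∀ φ, t (cc L • φ) = -t φ := by
    intro φ
    have h1 := hsl' φ 1
    have h2 := hsl' (cc L • φ) 1
    have h3 : tw p ν j Z.X ⟨i, cc L • φ⟩ 1 = -tw p ν j Z.X ⟨i, φ⟩ 1 :=
      congrFun (tw_cw (p := p) (ν := ν) (j := j) (⟨i, φ⟩ : Wt Z.X L)) 1
    rw [one_smul] at h1 h2
    rw [h3] at h2
    have h4 : (Nat.card (Dec p ν j) : ℤ) * t (cc L • φ) =
        (Nat.card (Dec p ν j) : ℤ) * (-t φ) := by linarith
    exact mul_left_cancel₀ hD h4
  have hcardt : (Finset.univ.filter fun φ : X => Odd (t φ)).card =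
      (Finset.univ.filter fun φ : (Z.X.factor i).E →+* ℂ => Odd (s φ)).card := by
    refine Finset.card_bij (fun φ _ => j.comp φ) (fun φ hφ => ?_) (fun φ _ ψ _ h => comp_inj h)
      fun ψ hψ => ?_
    · rw [Finset.mem_filter] at hφ ⊢
      exact ⟨Finset.mem_univ _, hφ.2⟩
    · obtain ⟨φ, rfl⟩ := hZ i ψ
      rw [Finset.mem_filter] at hψ
      exact ⟨φ, Finset.mem_filter.2 ⟨Finset.mem_univ _, hψ.2⟩, rfl⟩
  have hrel : ∀ σ : L ≃ₐ[ℚ] L, ∑ φ : X, oddE e (E φ) * t (σ • φ) = 0 := by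
    intro σ
    have h1 := odd_rel hZ he σ
    have h2 : ∑ φ : X, oddE e (E φ) * tw p ν j Z.X ⟨i, φ⟩ σ = 0 := by
      rw [← h1]
      refine Fintype.sum_of_injective (fun φ : X => (⟨i, φ⟩ : Wt Z.X L))
        (fun φ φ' h => eq_of_heq (Sigma.mk.inj_iff.1 h).2) _ _ (fun w hw => ?_) fun φ => rfl
      rw [odd_supp hs, zero_mul]
      intro h4
      apply hw
      obtain ⟨k, φ⟩ := w
      obtain rfl : k = i := h4
      exact ⟨φ, rfl⟩
    have h3 : (Nat.card (Dec p ν j) : ℤ) * ∑ φ : X, oddE e (E φ) * t (σ • φ) = 0 := by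
      rw [← mul_zero (m : ℤ), ← h2, Finset.mul_sum, Finset.mul_sum]
      refine Finset.sum_congr rfl fun φ _ => ?_
      have h4 := hsl' φ σ
      calc (Nat.card (Dec p ν j) : ℤ) * (oddE e (E φ) * t (σ • φ)) =
          oddE e (E φ) * ((Nat.card (Dec p ν j) : ℤ) * t (σ • φ)) := by ring
        _ = (m : ℤ) * (oddE e (E φ) * tw p ν j Z.X ⟨i, φ⟩ σ) := by
          rw [h4]
          ring
    exact (mul_eq_zero.1 h3).resolve_left hD
  have key := two_block hset n ((Pool.Agent.W495.TA.card_emb (hZ i)).trans hdeg) t htc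
    (by rw [hcardt]; exact hodd) (fun φ => oddE e (E φ)) (fun φ => by
      change oddE e (E (cc L • φ)) = -oddE e (E φ)
      have hcc : cc L • cc L • φ = φ := by rw [← mul_smul, cc_cc, one_smul]
      unfold oddE
      rw [hEc, hEc, hcc]
      ring) hrel
  refine sym_elem e fun w => ?_
  by_cases hw : w.1 ∈ ({i} : Set Z.X.I)
  · obtain ⟨k, ψ⟩ := w
    obtain rfl : k = i := hw
    obtain ⟨φ, rfl⟩ := hZ k ψ
    exact key φ
  · exact odd_supp hs hw

end

end Pool.Agent.T9h37.PP
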