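import Pool.Agent.T9h37.PP.Half

/-!
# Relations on sets with `2 ℓ ^ n` elements
-/

set_option autoImplicit false
set_option linter.unusedSectionVars false
set_option linter.unusedVariables false

namespace Pool.Agent.T9h37.PP

open Pool.Agent.W495.TA

noncomputable section

variable {G : Type} [Group G] [Finite G] {c : G}

open Classical in
/-- Sets `X i` with `2 ℓ ^ (n i)` elements, `ℓ` odd, and different characters. -/
theorem odd_block {I : Type} [Fintype I] (X : I → Type) [∀ i, Fintype (X i)]
    [∀ i, MulAction G (X i)] (hset : ∀ i, Setting G (X i) c) {ℓ : ℕ} (hℓ : ℓ.Prime)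
    (hℓ2 : ℓ ≠ 2) (n : I → ℕ) (hcard : ∀ i, Fintype.card (X i) = 2 * ℓ ^ n i)
    (T : ∀ i, Set (X i)) (ε : I → G →* ℤˣ) (hT : ∀ i, IsHalfSet c (T i) (ε i))
    (hinj : Function.Injective ε) (s : ∀ i, X i → ℤ) (hs : ∀ i x, s i (c • x) = -s i x)
    (hN : ∀ i, ¬ (ℓ : ℤ) ∣ ∑ x, if x ∈ T i then s i x else 0) (f : ∀ i, X i → ℤ)
    (hf : ∀ i x, f i (c • x) = -f i x)
    (hrel : ∀ σ : G, ∑ i, ∑ x, f i x * s i (σ • x) = 0) : ∀ i x, f i x = 0 := by
  have hfℓ : Fact ℓ.Prime := ⟨hℓ⟩
  obtain ⟨P, hP, hPi⟩ := sylow_coprime (G := G) hℓ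
  let R : AddSubgroup ((Σ i, X i) → ℤ) :=
    { carrier := {f | (∀ i x, f ⟨i, c • x⟩ = -f ⟨i, x⟩) ∧
        ∀ σ : G, ∑ i, ∑ x, f ⟨i, x⟩ * s i (σ • x) = 0}
      zero_mem' := by
        refine ⟨fun i x => by simp, fun σ => ?_⟩
        simp
      add_mem' := by
        rintro f g ⟨h1, h2⟩ ⟨h3, h4⟩
        refine ⟨fun i x => ?_, fun σ => ?_⟩
        · rw [Pi.add_apply, Pi.add_apply, h1, h3]
          ring
        · have h5 : ∑ i, ∑ x, (f + g) ⟨i, x⟩ * s i (σ • x) =
              ∑ i, ∑ x, f ⟨i, x⟩ * s i (σ • x) + ∑ i, ∑ x, g ⟨i, x⟩ * s i (σ • x) := by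
            rw [← Finset.sum_add_distrib]
            refine Finset.sum_congr rfl fun i _ => ?_
            rw [← Finset.sum_add_distrib]
            refine Finset.sum_congr rfl fun x _ => ?_
            rw [Pi.add_apply]
            ring
          rw [h5, h2, h4, add_zero]
      neg_mem' := by
        rintro f ⟨h1, h2⟩
        refine ⟨fun i x => ?_, fun σ => ?_⟩
        · rw [Pi.neg_apply, Pi.neg_apply, h1]
        · have h5 : ∑ i, ∑ x, (-f) ⟨i, x⟩ * s i (σ • x) =
              -∑ i, ∑ x, f ⟨i, x⟩ * s i (σ • x) := by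
            rw [← Finset.sum_neg_distrib]
            refine Finset.sum_congr rfl fun i _ => ?_
            rw [← Finset.sum_neg_distrib]
            refine Finset.sum_congr rfl fun x _ => ?_
            rw [Pi.neg_apply]
            ring
          rw [h5, h2, neg_zero] }
  have hmem : ∀ f : (Σ i, X i) → ℤ, f ∈ R ↔ (∀ i x, f ⟨i, c • x⟩ = -f ⟨i, x⟩) ∧
      ∀ σ : G, ∑ i, ∑ x, f ⟨i, x⟩ * s i (σ • x) = 0 := fun f => Iff.rfl
  have key : ∀ f ∈ R, f = 0 := by
    refine descent hℓ P hP R (fun τ hτ f hf => ?_) (fun f hf => ?_) fun f hf hinv => ?_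
    · -- stability
      obtain ⟨h1, h2⟩ := (hmem f).1 hf
      refine (hmem _).2 ⟨fun i x => ?_, fun σ => ?_⟩
      · change f ⟨i, τ • c • x⟩ = -f ⟨i, τ • x⟩
        have e1 : τ • c • x = c • τ • x := by rw [← mul_smul, ← (hset i).comm, mul_smul]
        rw [e1, h1]
      · rw [← h2 (σ * τ⁻¹)]
        refine Finset.sum_congr rfl fun i _ => ?_
        refine Fintype.sum_equiv (MulAction.toPerm τ) _ _ fun x => ?_
        rw [MulAction.toPerm_apply]
        change f ⟨i, τ • x⟩ * s i (σ • x) = f ⟨i, τ • x⟩ * s i ((σ * τ⁻¹) • τ • x)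
        rw [mul_smul, inv_smul_smul]
    · -- saturation
      have hℓ0 : (ℓ : ℤ) ≠ 0 := by exact_mod_cast hℓ.ne_zero
      obtain ⟨h1, h2⟩ := (hmem _).1 hf
      refine (hmem _).2 ⟨fun i x => ?_, fun σ => ?_⟩
      · have h3 := h1 i x
        have h4 : (ℓ : ℤ) * f ⟨i, c • x⟩ = (ℓ : ℤ) * (-f ⟨i, x⟩) := by
          rw [h3]
          ring
        exact mul_left_cancel₀ hℓ0 h4
      · have h3 := h2 σ
        have h4 : (ℓ : ℤ) * ∑ i, ∑ x, f ⟨i, x⟩ * s i (σ • x) = 0 := by
          rw [← h3, Finset.mul_sum]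
          refine Finset.sum_congr rfl fun i _ => ?_
          rw [Finset.mul_sum]
          refine Finset.sum_congr rfl fun x _ => ?_
          ring
        exact (mul_eq_zero.1 h4).resolve_left hℓ0
    · -- invariant functions modulo `ℓ`
      obtain ⟨h1, h2⟩ := (hmem _).1 hf
      have hne : ∀ i, ∃ x : X i, x ∈ T i := by
        intro i
        have h3 := (hT i).card (hset i) (hcard i)
        have h4 : 0 < (T i).ncard := by
          rw [h3]
          exact pow_pos hℓ.pos _
        rw [Set.ncard_pos] at h4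
        exact h4
      choose x0 hx0 using hne
      have hconst : ∀ i, ∀ x ∈ T i, ((f ⟨i, x⟩ : ℤ) : ZMod ℓ) = ((f ⟨i, x0 i⟩ : ℤ) : ZMod ℓ) := by
        intro i x hx
        obtain ⟨σ, hσ, hσx⟩ := trans_on (hset i).trans P (t := ℓ ^ n i)
          (by rw [hcard]; exact dvd_mul_left _ _) (hPi _) (T i)
          ((hT i).card (hset i) (hcard i)) (fun σ hσ z hz => by
            have h3 : ε i σ = 1 := pgroup_ker hℓ hℓ2 hP (ε i) hσ
            rw [(hT i).mem]
            tauto) (hx0 i) hx
        have h3 := hinv σ hσ ⟨i, x0 i⟩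
        rw [← ZMod.intCast_zmod_eq_zero_iff_dvd, Int.cast_sub, sub_eq_zero] at h3
        have h4 : σ • (⟨i, x0 i⟩ : Σ i, X i) = ⟨i, x⟩ := by
          rw [← hσx]
          rfl
        rw [h4] at h3
        exact h3
      let b : I → ZMod ℓ := fun i => 2 * ((f ⟨i, x0 i⟩ : ℤ) : ZMod ℓ) *
        (((∑ x, if x ∈ T i then s i x else 0 : ℤ)) : ZMod ℓ)
      let χ : I → G →* ZMod ℓ := fun i =>
        ((Int.castRingHom (ZMod ℓ)).toMonoidHom.comp (Units.coeHom ℤ)).comp (ε i)
      have hχ : ∀ i σ, χ i σ = (((ε i σ : ℤˣ) : ℤ) : ZMod ℓ) := fun i σ => rfl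
      have hlt : 2 < ℓ := lt_of_le_of_ne hℓ.two_le (Ne.symm hℓ2)
      have h2ne : (2 : ZMod ℓ) ≠ 0 := by
        intro h
        have h3 : ((2 : ℕ) : ZMod ℓ) = 0 := by exact_mod_cast h
        rw [ZMod.natCast_eq_zero_iff] at h3
        exact absurd (Nat.le_of_dvd two_pos h3) (by omega)
      have hχinj : Function.Injective χ := by
        intro i k h
        apply hinj
        ext σ
        have h3 := DFunLike.congr_fun h σ
        rw [hχ, hχ] at h3
        rcases units_int (ε i σ) with h4 | h4 <;> rcases units_int (ε k σ) with h5 | h5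
        · rw [h4, h5]
        · exfalso
          rw [h4, h5, Units.val_one, Units.val_neg, Units.val_one, Int.cast_neg, Int.cast_one] at h3
          apply h2ne
          linear_combination h3
        · exfalso
          rw [h4, h5, Units.val_one, Units.val_neg, Units.val_one, Int.cast_neg, Int.cast_one] at h3
          apply h2ne
          linear_combination -h3
        · rw [h4, h5]
      have hsum : ∀ σ : G, ∑ i, b i * χ i σ = 0 := by
        intro σ
        have h3 := h2 σ
        have h4 : ∀ i, ((∑ x, f ⟨i, x⟩ * s i (σ • x) : ℤ) : ZMod ℓ) = b i * χ i σ := by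
          intro i
          have e1 : ∀ x : X i, σ • c • x = c • σ • x := fun x => by
            rw [← mul_smul, ← (hset i).comm, mul_smul]
          rw [even_sum (hT i) (fun x => f ⟨i, x⟩ * s i (σ • x)) (fun x => by
            change f ⟨i, c • x⟩ * s i (σ • c • x) = f ⟨i, x⟩ * s i (σ • x)
            rw [e1, h1, hs]
            ring)]
          rw [Int.cast_mul, Int.cast_sum]
          have h5 : ∀ x : X i, (((if x ∈ T i then f ⟨i, x⟩ * s i (σ • x) else 0 : ℤ)) : ZMod ℓ) =
              ((f ⟨i, x0 i⟩ : ℤ) : ZMod ℓ) *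
                (((if x ∈ T i then s i (σ • x) else 0 : ℤ)) : ZMod ℓ) := by
            intro x
            by_cases hx : x ∈ T i
            · rw [if_pos hx, if_pos hx, Int.cast_mul, hconst i x hx]
            · rw [if_neg hx, if_neg hx]
              simp
          rw [Finset.sum_congr rfl fun x _ => h5 x, ← Finset.mul_sum, ← Int.cast_sum,
            half_sum (hT i) (s i) (hs i) σ, Int.cast_mul, ← hχ]
          change (((2 : ℤ)) : ZMod ℓ) * _ = 2 * _ * _ * _
          rw [Int.cast_ofNat]
          ring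
        rw [← Finset.sum_congr rfl fun i _ => h4 i, ← Int.cast_sum, h3, Int.cast_zero]
      have hlin := linearIndependent_monoidHom G (ZMod ℓ)
      have hlin' : LinearIndependent (ZMod ℓ) (fun i : I => (χ i : G → ZMod ℓ)) :=
        hlin.comp χ hχinj
      have hb : ∀ i, b i = 0 := by
        have h3 := Fintype.linearIndependent_iff.1 hlin' b (by
          funext σ
          rw [Finset.sum_apply]
          simp only [Pi.smul_apply, smul_eq_mul]
          exact hsum σ)
        exact h3
      have hzero : ∀ i, ((f ⟨i, x0 i⟩ : ℤ) : ZMod ℓ) = 0 := by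
        intro i
        have h3 : (((∑ x, if x ∈ T i then s i x else 0 : ℤ)) : ZMod ℓ) ≠ 0 := by
          intro h
          rw [ZMod.intCast_zmod_eq_zero_iff_dvd] at h
          exact hN i h
        have h4 := hb i
        rcases mul_eq_zero.1 h4 with h5 | h5
        · exact (mul_eq_zero.1 h5).resolve_left h2ne
        · exact absurd h5 h3
      rintro ⟨i, x⟩
      rw [← ZMod.intCast_zmod_eq_zero_iff_dvd]
      by_cases hx : x ∈ T i
      · rw [hconst i x hx, hzero]
      · have h3 : c • x ∈ T i := ((hT i).cmem x).2 hx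
        have h4 := hconst i _ h3
        rw [hzero, h1, Int.cast_neg, neg_eq_zero] at h4
        exact h4
  intro i x
  have h1 : (fun w : Σ i, X i => f w.1 w.2) ∈ R := (hmem _).2 ⟨hf, hrel⟩
  have h2 := key _ h1
  exact congrFun h2 ⟨i, x⟩

open Classical in
/-- The number of the odd values of an even function, modulo four. -/
theorem sum_mod_four {X : Type} [Fintype X] [MulAction G X] (hset : Setting G X c) (g : X → ℤ)
    (hg : ∀ x, g (c • x) = g x) (h0 : ∑ x, g x = 0) :
    (Finset.univ.filter fun x => Odd (g x)).card % 4 = 0 := by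
  have h1 : ∀ x, ∃ h : ℤ, g x - (if Odd (g x) then 1 else 0) = 2 * h := by
    intro x
    by_cases hx : Odd (g x)
    · obtain ⟨m, hm⟩ := hx
      refine ⟨m, ?_⟩
      rw [if_pos ⟨m, hm⟩, hm]
      ring
    · rw [if_neg hx]
      rw [Int.not_odd_iff_even] at hx
      obtain ⟨m, hm⟩ := hx
      exact ⟨m, by rw [hm]; ring⟩
  choose h hh using h1
  have hc : ∀ x, h (c • x) = h x := by
    intro x
    have h2 := hh (c • x)
    rw [hg] at h2
    have h3 := hh x
    omega
  have h2 : ∑ x, ((h x : ℤ) : ZMod 2) = 0 := by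
    refine Finset.sum_involution (fun x _ => c • x) (fun x _ => ?_) (fun x _ _ => hset.ne x)
      (fun x _ => Finset.mem_univ _) fun x _ => ?_
    · rw [hc, ← two_mul]
      have : (2 : ZMod 2) = 0 := rfl
      rw [this, zero_mul]
    · rw [← mul_smul, hset.sq, one_smul]
  rw [← Int.cast_sum, ZMod.intCast_zmod_eq_zero_iff_dvd] at h2
  have h3 : ∑ x, (g x - (if Odd (g x) then 1 else 0)) = 2 * ∑ x, h x := by
    rw [Finset.mul_sum]
    exact Finset.sum_congr rfl fun x _ => hh x
  rw [Finset.sum_sub_distrib, h0, Finset.sum_boole] at h3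
  obtain ⟨m, hm⟩ := h2
  rw [hm] at h3
  push_cast at h3
  omega

open Classical in
/-- A set with `2 ^ (n + 1)` elements. -/
theorem two_block {X : Type} [Fintype X] [MulAction G X] (hset : Setting G X c) (n : ℕ)
    (hcard : Fintype.card X = 2 ^ (n + 1)) (s : X → ℤ) (hs : ∀ x, s (c • x) = -s x)
    (hodd : (Finset.univ.filter fun x => Odd (s x)).card % 4 = 2) (f : X → ℤ)
    (hf : ∀ x, f (c • x) = -f x) (hrel : ∀ σ : G, ∑ x, f x * s (σ • x) = 0) :
    ∀ x, f x = 0 := by
  obtain ⟨P, hP, hPi⟩ := sylow_coprime (G := G) Nat.prime_two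
  let R : AddSubgroup (X → ℤ) :=
    { carrier := {f | (∀ x, f (c • x) = -f x) ∧ ∀ σ : G, ∑ x, f x * s (σ • x) = 0}
      zero_mem' := by
        refine ⟨fun x => by simp, fun σ => ?_⟩
        simp
      add_mem' := by
        rintro f g ⟨h1, h2⟩ ⟨h3, h4⟩
        refine ⟨fun x => ?_, fun σ => ?_⟩
        · rw [Pi.add_apply, Pi.add_apply, h1, h3]
          ring
        · have h5 : ∑ x, (f + g) x * s (σ • x) =
              ∑ x, f x * s (σ • x) + ∑ x, g x * s (σ • x) := by
            rw [← Finset.sum_add_distrib]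
            refine Finset.sum_congr rfl fun x _ => ?_
            rw [Pi.add_apply]
            ring
          rw [h5, h2, h4, add_zero]
      neg_mem' := by
        rintro f ⟨h1, h2⟩
        refine ⟨fun x => ?_, fun σ => ?_⟩
        · rw [Pi.neg_apply, Pi.neg_apply, h1]
        · have h5 : ∑ x, (-f) x * s (σ • x) = -∑ x, f x * s (σ • x) := by
            rw [← Finset.sum_neg_distrib]
            refine Finset.sum_congr rfl fun x _ => ?_
            rw [Pi.neg_apply]
            ring
          rw [h5, h2, neg_zero] }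
  have hmem : ∀ f : X → ℤ, f ∈ R ↔ (∀ x, f (c • x) = -f x) ∧
      ∀ σ : G, ∑ x, f x * s (σ • x) = 0 := fun f => Iff.rfl
  have key : ∀ f ∈ R, f = 0 := by
    refine descent Nat.prime_two P hP R (fun τ hτ f hf => ?_) (fun f hf => ?_) fun f hf hinv => ?_
    · obtain ⟨h1, h2⟩ := (hmem f).1 hf
      refine (hmem _).2 ⟨fun x => ?_, fun σ => ?_⟩
      · change f (τ • c • x) = -f (τ • x)
        have e1 : τ • c • x = c • τ • x := by rw [← mul_smul, ← hset.comm, mul_smul]
        rw [e1, h1]
      · rw [← h2 (σ * τ⁻¹)]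
        refine Fintype.sum_equiv (MulAction.toPerm τ) _ _ fun x => ?_
        rw [MulAction.toPerm_apply]
        change f (τ • x) * s (σ • x) = f (τ • x) * s ((σ * τ⁻¹) • τ • x)
        rw [mul_smul, inv_smul_smul]
    · obtain ⟨h1, h2⟩ := (hmem _).1 hf
      refine (hmem _).2 ⟨fun x => ?_, fun σ => ?_⟩
      · have h3 := h1 x
        push_cast at h3
        omega
      · have h3 := h2 σ
        have h4 : ((2 : ℕ) : ℤ) * ∑ x, f x * s (σ • x) = 0 := by
          rw [← h3, Finset.mul_sum]
          refine Finset.sum_congr rfl fun x _ => ?_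
          ring
        exact (mul_eq_zero.1 h4).resolve_left (by norm_num)
    · obtain ⟨h1, h2⟩ := (hmem _).1 hf
      have htrans : ∀ x y : X, ∃ σ ∈ P, σ • x = y := by
        intro x y
        have h3 : Fintype.card X = (Set.univ : Set X).ncard := by
          rw [Set.ncard_univ, Nat.card_eq_fintype_card]
        exact trans_on hset.trans P (t := 2 ^ (n + 1)) (by rw [hcard]) (hPi _) Set.univ
          (h3.symm.trans hcard) (fun σ _ x _ => Set.mem_univ _) (Set.mem_univ x) (Set.mem_univ y)
      intro x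
      by_contra hx
      have hall : ∀ y, Odd (f y) := by
        intro y
        obtain ⟨σ, hσ, rfl⟩ := htrans x y
        obtain ⟨m, hm⟩ := hinv σ hσ x
        rw [Int.odd_iff]
        push_cast at hm hx
        omega
      have h3 := sum_mod_four hset (fun x => f x * s x) (fun x => by
        change f (c • x) * s (c • x) = f x * s x
        rw [h1, hs]
        ring) (by
        have h4 := h2 1
        simpa using h4)
      have h4 : (Finset.univ.filter fun x => Odd (f x * s x)) =
          Finset.univ.filter fun x => Odd (s x) := by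
        ext y
        rw [Finset.mem_filter, Finset.mem_filter, Int.odd_mul]
        have := hall y
        tauto
      rw [h4] at h3
      omega
  intro x
  exact congrFun (key f ((hmem f).2 ⟨hf, hrel⟩)) x

end

end Pool.Agent.T9h37.PP
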