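import Pool.Agent.N202.QR.PrimeRel

/-!
# Groups of prime power order acting on integral functions: relations modulo a prime number
-/

set_option autoImplicit false
set_option linter.unusedSectionVars false
set_option linter.unusedVariables false

namespace Pool.Agent.T9h37.PP

open Pool.Agent.W495.TA

noncomputable section

/-- A group `R` of integral functions on `W`, stable under a group `P` of `ℓ`-power order and with `ℓ f ∈ R`
only for `f ∈ R`, is zero if all functions in `R` which are invariant under `P` modulo `ℓ` are divisible by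
`ℓ`. -/
theorem descent {G W : Type} [Group G] [Finite G] [Fintype W] [MulAction G W] {ℓ : ℕ}
    (hℓ : ℓ.Prime) (P : Subgroup G) (hP : IsPGroup ℓ P)
    (R : AddSubgroup (W → ℤ)) (hR : ∀ σ ∈ P, ∀ f ∈ R, (fun w => f (σ • w)) ∈ R)
    (hsat : ∀ f : W → ℤ, (fun w => (ℓ : ℤ) * f w) ∈ R → f ∈ R)
    (hinv : ∀ f ∈ R, (∀ σ ∈ P, ∀ w, (ℓ : ℤ) ∣ f (σ • w) - f w) → ∀ w, (ℓ : ℤ) ∣ f w) :
    ∀ f ∈ R, f = 0 := by
  classical
  have hfℓ : Fact ℓ.Prime := ⟨hℓ⟩
  let red : (W → ℤ) →+ (W → ZMod ℓ) :=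
    { toFun := fun f w => (f w : ZMod ℓ)
      map_zero' := by
        funext w
        simp
      map_add' := by
        intro f g
        funext w
        simp }
  let Rb : AddSubgroup (W → ZMod ℓ) := R.map red
  have hact : ∀ σ ∈ P, ∀ f ∈ Rb, (fun w => f (σ • w)) ∈ Rb := by
    rintro σ hσ _ ⟨f, hf, rfl⟩
    exact ⟨_, hR σ hσ f hf, rfl⟩
  let _ : MulAction P Rb :=
    { smul := fun σ f => ⟨fun w => f.1 ((σ : G)⁻¹ • w), hact _ (P.inv_mem σ.2) _ f.2⟩
      one_smul := by
        intro f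
        apply Subtype.ext
        funext w
        change f.1 (((1 : P) : G)⁻¹ • w) = f.1 w
        simp
      mul_smul := by
        intro σ τ f
        apply Subtype.ext
        funext w
        change f.1 (((σ * τ : P) : G)⁻¹ • w) = f.1 ((τ : G)⁻¹ • (σ : G)⁻¹ • w)
        rw [Subgroup.coe_mul, mul_inv_rev, mul_smul] }
  have hsm : ∀ (σ : P) (f : Rb) (w : W), (σ • f).1 w = f.1 ((σ : G)⁻¹ • w) := fun _ _ _ => rfl
  have key : Rb = ⊥ := by
    by_contra h0
    have hcard : ℓ ∣ Nat.card Rb := by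
      have h1 : Nat.card Rb ∣ Nat.card (W → ZMod ℓ) := AddSubgroup.card_addSubgroup_dvd_card Rb
      rw [Nat.card_fun, Nat.card_zmod] at h1
      obtain ⟨k, -, hk⟩ := (Nat.dvd_prime_pow hℓ).1 h1
      rcases k with _ | k
      · exfalso
        apply h0
        rw [pow_zero] at hk
        exact AddSubgroup.eq_bot_of_card_eq Rb hk
      · rw [hk, pow_succ]
        exact dvd_mul_left _ _
    obtain ⟨b, hb, hb0⟩ := hP.exists_fixed_point_of_prime_dvd_card_of_fixed_point Rb hcard
      (a := 0) (by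
        intro σ
        apply Subtype.ext
        funext w
        rw [hsm]
        rfl)
    obtain ⟨f, hf, hfb⟩ := b.2
    apply hb0
    apply Subtype.ext
    funext w
    rw [← hfb]
    change (0 : ZMod ℓ) = (f w : ZMod ℓ)
    symm
    rw [ZMod.intCast_zmod_eq_zero_iff_dvd]
    refine hinv f hf (fun σ hσ w => ?_) w
    rw [← ZMod.intCast_zmod_eq_zero_iff_dvd, Int.cast_sub, sub_eq_zero]
    have h1 := congrFun (congrArg Subtype.val (hb ⟨σ⁻¹, P.inv_mem hσ⟩)) w
    rw [hsm, ← hfb] at h1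
    change ((f ((σ⁻¹)⁻¹ • w) : ℤ) : ZMod ℓ) = (f w : ZMod ℓ) at h1
    rw [inv_inv] at h1
    exact h1
  have hdiv : ∀ f ∈ R, ∀ w, (ℓ : ℤ) ∣ f w := by
    intro f hf w
    have h1 : red f ∈ Rb := ⟨f, hf, rfl⟩
    rw [key] at h1
    have h2 := congrFun ((AddSubgroup.mem_bot).1 h1) w
    rw [← ZMod.intCast_zmod_eq_zero_iff_dvd]
    exact h2
  have hall : ∀ m : ℕ, ∀ f ∈ R, ∀ w, ((ℓ : ℤ) ^ m) ∣ f w := by
    intro m
    induction m with
    | zero =>
      intro f _ w
      rw [pow_zero]
      exact one_dvd _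
    | succ m ih =>
      intro f hf w
      choose g hg using hdiv f hf
      have h1 : f = fun w => (ℓ : ℤ) * g w := funext hg
      have h2 : g ∈ R := hsat g (h1 ▸ hf)
      rw [hg, pow_succ, mul_comm]
      exact mul_dvd_mul_left _ (ih g h2 w)
  intro f hf
  funext w
  by_contra h
  have hfin : FiniteMultiplicity (ℓ : ℤ) (f w) := by
    rw [Int.finiteMultiplicity_iff]
    refine ⟨?_, h⟩
    rw [Int.natAbs_natCast]
    exact hℓ.ne_one
  obtain ⟨m, hm⟩ := hfin
  exact hm (hall (m + 1) f hf w)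

variable {G X Y : Type} [Group G] [Finite G] [Fintype X] [MulAction G X] [MulAction G Y] {c : G}

/-- The orbits of a subgroup whose index is prime to a divisor `t` of the cardinality. -/
theorem dvd_orbit (htr : ∀ x y : X, ∃ g : G, g • x = y) (Q : Subgroup G) {t : ℕ}
    (ht : t ∣ Fintype.card X) (hcop : Nat.Coprime t Q.index) (x : X) :
    t ∣ (MulAction.orbit Q x).ncard := by
  have hpre : MulAction.IsPretransitive G X := ⟨htr⟩
  let H : Subgroup G := MulAction.stabilizer G x
  have h1 : H.index = Fintype.card X := by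
    rw [← Nat.card_eq_fintype_card]
    exact MulAction.index_stabilizer_of_transitive G x
  have h2 : (MulAction.stabilizer Q x).index = (MulAction.orbit Q x).ncard :=
    MulAction.index_stabilizer Q x
  have h3 : MulAction.stabilizer Q x = H.subgroupOf Q := by
    ext g
    rfl
  have h4 : (H ⊓ Q).relIndex Q = (MulAction.orbit Q x).ncard := by
    rw [Subgroup.inf_relIndex_right, ← h2, h3]
    rfl
  have h5 : (H ⊓ Q).relIndex Q * Q.index = (H ⊓ Q).index :=
    Subgroup.relIndex_mul_index inf_le_right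
  have h6 : H.index ∣ (H ⊓ Q).index := Subgroup.index_dvd_of_le inf_le_left
  rw [← h5, h1, h4] at h6
  exact hcop.dvd_of_dvd_mul_right (ht.trans h6)

/-- Such a subgroup operates transitively on a stable set with `t` elements. -/
theorem trans_on (htr : ∀ x y : X, ∃ g : G, g • x = y) (Q : Subgroup G) {t : ℕ}
    (ht : t ∣ Fintype.card X) (hcop : Nat.Coprime t Q.index) (T : Set X) (hT : T.ncard = t)
    (hst : ∀ σ ∈ Q, ∀ x ∈ T, σ • x ∈ T) {x y : X} (hx : x ∈ T) (hy : y ∈ T) :
    ∃ σ ∈ Q, σ • x = y := by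
  have h1 := dvd_orbit htr Q ht hcop x
  have hsub : MulAction.orbit Q x ⊆ T := by
    rintro _ ⟨σ, rfl⟩
    exact hst σ.1 σ.2 x hx
  have hpos : 0 < (MulAction.orbit Q x).ncard := by
    rw [Set.ncard_pos]
    exact ⟨x, MulAction.mem_orbit_self x⟩
  have h2 : T.ncard ≤ (MulAction.orbit Q x).ncard := by
    rw [hT]
    exact Nat.le_of_dvd hpos h1
  have h3 := Set.eq_of_subset_of_ncard_le hsub h2
  rw [← h3] at hy
  obtain ⟨σ, hσ⟩ := hy
  exact ⟨σ.1, σ.2, hσ⟩

end

end Pool.Agent.T9h37.PP
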