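import Pool.Agent.T9h37.BI.Defs

/-!
# Abelian varieties over finite fields whose simple factors have CM fields of degree two times a power of a
prime number: definitions
-/

set_option autoImplicit false

namespace Pool.Agent.T9h37.PP

open NumberField Module Pool.Agent.W495.TA Pool.Agent.W495.FM Pool.Agent.T9h37.BI

noncomputable section

variable {p : ℕ} [Fact p.Prime]

/-- The integers `s φ` are `m (2 λ - 1)` for the slopes `λ` of the number `x` (the `p`-adic valuations of the
conjugates `φ x`, normalised by the value one of `p ^ a`). -/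
def IsSlopes (ν : PadicAlgCl p ≃+* ℂ) (a m : ℕ) {E : Type} [Field E] (x : E)
    (s : (E →+* ℂ) → ℤ) : Prop :=
  0 < m ∧ ∀ φ : E →+* ℂ,
    ‖ν.symm (φ x)‖ ^ (2 * (m : ℤ)) = ‖(p : PadicAlgCl p)‖ ^ ((a : ℤ) * ((m : ℤ) + s φ))

open Classical in
/-- The CM field `E` has degree `2 ℓ ^ n`, `ℓ` an odd prime number, and it contains the imaginary quadratic
field `ℚ(√-d)`. For a suitable `m` the numbers `s φ = m (2 λ φ - 1)`, `λ` the slopes of `x`, are integers
and their sum over the embeddings `φ` of `E` which extend one embedding of `ℚ(√-d)` is not divisible by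
`ℓ`. -/
def IsOddType (ν : PadicAlgCl p ≃+* ℂ) (a d : ℕ) {E : Type} [Field E] [NumberField E]
    (x : E) : Prop :=
  ∃ (ℓ n m : ℕ) (δ : E) (s : (E →+* ℂ) → ℤ), ℓ.Prime ∧ ℓ ≠ 2 ∧ finrank ℚ E = 2 * ℓ ^ n ∧
    0 < d ∧ δ ^ 2 = -(d : E) ∧ IsSlopes ν a m x s ∧
    ¬ (ℓ : ℤ) ∣ ∑ φ : E →+* ℂ, if 0 < (φ δ).im then s φ else 0

open Classical in
/-- The CM field `E` has degree `2 ^ (n + 1)`. For a suitable `m` the numbers `s φ = m (2 λ φ - 1)`, `λ` the
slopes of `x`, are integers and the number of the complex conjugate pairs of embeddings for which they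
are odd is odd. -/
def IsTwoType (ν : PadicAlgCl p ≃+* ℂ) (a : ℕ) {E : Type} [Field E] [NumberField E]
    (x : E) : Prop :=
  ∃ (n m : ℕ) (s : (E →+* ℂ) → ℤ), finrank ℚ E = 2 ^ (n + 1) ∧ IsSlopes ν a m x s ∧
    (Finset.univ.filter fun φ : E →+* ℂ => Odd (s φ)).card % 4 = 2

/-- The field `E` does not contain a square root of `-d`. -/
def NoRoot (d : ℕ) (E : Type) [Field E] : Prop := ∀ x : E, x ^ 2 ≠ -(d : E)

variable {ν : PadicAlgCl p ≃+* ℂ}

/-- The factors `i` of `Z` outside of `J` have odd type with an imaginary quadratic field `ℚ(√-d_i)` which is not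
contained in the CM field of any other factor; the factors in `J` have a CM field of degree a power of two,
these CM fields are independent (`Indep`). -/
def HasPrimePowerFactors (Z : RedAV p ν) : Prop :=
  ∃ (J : Set Z.X.I) (d : Z.X.I → ℕ),
    (∀ i ∈ J, IsTwoType ν Z.a (Z.π i) ∧
      ∀ k ∈ J, k ≠ i → Indep (Z.X.factor i).E (Z.X.factor k).E) ∧
    ∀ i, i ∉ J → IsOddType ν Z.a (d i) (Z.π i) ∧ ∀ k, k ≠ i → NoRoot (d i) (Z.X.factor k).E

/-- The abelian variety `Y` is, over an algebraic closure, isogenous to the product of a supersingular abelian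
variety and of powers of factors of an abelian variety `Z` as above. -/
def IsPrimePowerAV (Y : RedAV p ν) : Prop :=
  ∃ Z : RedAV p ν, HasPrimePowerFactors Z ∧
    ∀ i, IsSS p Y.a (Y.π i) ∨ ∃ k, IsPow Z.a Y.a (Z.π k) (Y.π i)

/-- The groups of motivic and of `ℓ`-adic homology of `X` are those of an abelian variety `Y` as above. -/
def IsPrimePowerAbelian {Ω V : Type} [Field Ω] [CharZero Ω] (p : ℕ) [Fact p.Prime]
    (ν : PadicAlgCl p ≃+* ℂ) (T : Homology Ω V) (X : V) : Prop :=
  ∃ (Y : RedAV p ν) (C : Cycles Ω Y) (M : Motivic C) (g : ℕ), IsPrimePowerAV Y ∧ IsChow C ∧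
    IsMotivic M ∧ IsAbelian T X M g

end

end Pool.Agent.T9h37.PP
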