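import Pool.Agent.T9h37.PP.Comb

/-!
# Sets with `2 ℓ ^ n` elements with an odd function whose sum over a half is prime to `ℓ`
-/

set_option autoImplicit false
set_option linter.unusedSectionVars false
set_option linter.unusedVariables false

namespace Pool.Agent.T9h37.PP

open Pool.Agent.W495.TA

noncomputable section

variable {G X Y : Type} [Group G] [Finite G] [Fintype X] [MulAction G X] [MulAction G Y] {c : G}

/-- `T` is a half of `X`: it is mapped to itself or to its complement, according to a character `ε`. -/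
structure IsHalfSet (c : G) (T : Set X) (ε : G →* ℤˣ) : Prop where
  mem : ∀ (σ : G) (x : X), σ • x ∈ T ↔ (ε σ = 1 ↔ x ∈ T)
  conj : ε c = -1

theorem IsHalfSet.cmem {T : Set X} {ε : G →* ℤˣ} (h : IsHalfSet c T ε) (x : X) :
    c • x ∈ T ↔ x ∉ T := by
  rw [h.mem, h.conj]
  have : ¬ ((-1 : ℤˣ) = 1) := by decide
  tauto

theorem IsHalfSet.compl {T : Set X} {ε : G →* ℤˣ} (h : IsHalfSet c T ε) :
    IsHalfSet c Tᶜ ε := by
  refine ⟨fun σ x => ?_, h.conj⟩
  rw [Set.mem_compl_iff, Set.mem_compl_iff, h.mem]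
  tauto

theorem IsHalfSet.card (hset : Setting G X c) {T : Set X} {ε : G →* ℤˣ} (h : IsHalfSet c T ε)
    {n : ℕ} (hn : Fintype.card X = 2 * n) : T.ncard = n := by
  have h1 : Tᶜ = (fun x => c • x) '' T := by
    ext x
    constructor
    · intro hx
      refine ⟨c • x, ?_, ?_⟩
      · exact (h.cmem x).2 hx
      · change c • c • x = x
        rw [← mul_smul, hset.sq, one_smul]
    · rintro ⟨y, hy, rfl⟩ h2
      exact (h.cmem y).1 h2 hy
  have h2 : Tᶜ.ncard = T.ncard := by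
    rw [h1, Set.ncard_image_of_injective _ (MulAction.injective c)]
  have h3 := Set.ncard_add_ncard_compl T
  rw [h2, Nat.card_eq_fintype_card, hn] at h3
  omega

theorem units_int (u : ℤˣ) : u = 1 ∨ u = -1 := Int.units_eq_one_or u

theorem index_ker_dvd (ε : G →* ℤˣ) : ε.ker.index ∣ 2 := by
  rw [Subgroup.index_ker]
  have h1 : Nat.card ε.range ∣ Nat.card ℤˣ := Subgroup.card_subgroup_dvd_card _
  rwa [Nat.card_eq_fintype_card (α := ℤˣ), Fintype.card_units_int] at h1

/-- An element which fixes `y` and conjugates `x`. -/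
theorem fix_conj [Fintype Y] (hset : Setting G X c) {n : ℕ} (hcard : Fintype.card X = 2 * n)
    (hn : Odd n) {T : Set X} {ε : G →* ℤˣ} (hT : IsHalfSet c T ε)
    (htrY : ∀ y y' : Y, ∃ g : G, g • y = y') (hcop : Nat.Coprime n (Fintype.card Y)) (x : X)
    (y : Y) (h : G) (hy : h • y = y) (hε : ε h ≠ 1) : ∃ g : G, g • y = y ∧ g • x = c • x := by
  -- a half without `x`
  obtain ⟨T', hT', hx⟩ : ∃ T' : Set X, IsHalfSet c T' ε ∧ x ∉ T' := by
    by_cases hx : x ∈ T
    · exact ⟨Tᶜ, hT.compl, fun h => h hx⟩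
    · exact ⟨T, hT, hx⟩
  let S : Subgroup G := MulAction.stabilizer G y
  let Q : Subgroup G := S ⊓ ε.ker
  have hpre : MulAction.IsPretransitive G Y := ⟨htrY⟩
  have h1 : S.index = Fintype.card Y := by
    rw [← Nat.card_eq_fintype_card]
    exact MulAction.index_stabilizer_of_transitive G y
  have h2 : Q.index ∣ 2 * Fintype.card Y := by
    have h3 : Q.relIndex S * S.index = Q.index := Subgroup.relIndex_mul_index inf_le_left
    have h4 : Q.relIndex S = ε.ker.relIndex S := Subgroup.inf_relIndex_left _ _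
    have h5 : ε.ker.relIndex S ∣ 2 :=
      (Subgroup.relIndex_dvd_index_of_normal ε.ker S).trans (index_ker_dvd ε)
    rw [← h3, h4, h1]
    exact mul_dvd_mul_right h5 _
  have hcop' : Nat.Coprime n Q.index := by
    refine Nat.Coprime.coprime_dvd_right h2 ?_
    exact Nat.Coprime.mul_right hn.coprime_two_right hcop
  obtain ⟨q, hq, hqx⟩ := trans_on hset.trans Q (t := n) (by rw [hcard]; exact dvd_mul_left _ _)
    hcop' T' (hT'.card hset hcard) (fun σ hσ z hz => by
      have h3 : ε σ = 1 := hσ.2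
      rw [hT'.mem]
      tauto) (x := h • x) (y := c • x) (by
        rw [hT'.mem]
        tauto) ((hT'.cmem x).2 hx)
  refine ⟨q * h, ?_, ?_⟩
  · rw [mul_smul, hy]
    exact hq.1
  · rw [mul_smul, hqx]

open Classical in
theorem half_sum {T : Set X} {ε : G →* ℤˣ} (hT : IsHalfSet c T ε)
    (s : X → ℤ) (hs : ∀ x, s (c • x) = -s x) (σ : G) :
    (∑ x, if x ∈ T then s (σ • x) else 0) = ((ε σ : ℤˣ) : ℤ) * ∑ x, if x ∈ T then s x else 0 := by
  have h1 : (∑ x, if x ∈ T then s (σ • x) else 0) =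
      ∑ y, if (ε σ = 1 ↔ y ∈ T) then s y else 0 := by
    refine Fintype.sum_equiv (MulAction.toPerm σ) _ _ fun x => ?_
    rw [MulAction.toPerm_apply]
    have h2 : (ε σ = 1 ↔ σ • x ∈ T) ↔ x ∈ T := by
      rw [hT.mem]
      tauto
    by_cases hx : x ∈ T
    · rw [if_pos hx, if_pos (h2.2 hx)]
    · rw [if_neg hx, if_neg fun h => hx (h2.1 h)]
  rw [h1]
  rcases units_int (ε σ) with h | h
  · rw [h, Units.val_one, one_mul]
    refine Finset.sum_congr rfl fun x _ => ?_
    simp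
  · have h3 : ¬ ((-1 : ℤˣ) = 1) := by decide
    rw [h, Units.val_neg, Units.val_one, neg_one_mul, ← Finset.sum_neg_distrib]
    symm
    refine Fintype.sum_equiv (MulAction.toPerm c) _ _ fun x => ?_
    rw [MulAction.toPerm_apply, hs]
    by_cases hx : x ∈ T
    · have h4 : ((-1 : ℤˣ) = 1 ↔ c • x ∈ T) := by
        rw [hT.cmem]
        tauto
      rw [if_pos hx, if_pos h4]
    · have h4 : ¬ ((-1 : ℤˣ) = 1 ↔ c • x ∈ T) := by
        rw [hT.cmem]
        tauto
      rw [if_neg hx, if_neg h4, neg_zero]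

open Classical in
theorem even_sum {T : Set X} {ε : G →* ℤˣ} (hT : IsHalfSet c T ε) (g : X → ℤ)
    (hg : ∀ x, g (c • x) = g x) : ∑ x, g x = 2 * ∑ x, if x ∈ T then g x else 0 := by
  have h1 : ∑ x, g x = (∑ x, if x ∈ T then g x else 0) + ∑ x, if x ∈ T then 0 else g x := by
    rw [← Finset.sum_add_distrib]
    refine Finset.sum_congr rfl fun x _ => ?_
    split_ifs <;> ring
  have h2 : (∑ x, if x ∈ T then g x else 0) = ∑ x, if x ∈ T then 0 else g x := by
    refine Fintype.sum_equiv (MulAction.toPerm c) _ _ fun x => ?_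
    rw [MulAction.toPerm_apply, hg]
    by_cases hx : x ∈ T
    · rw [if_pos hx, if_neg fun h => (hT.cmem x).1 h hx]
    · rw [if_neg hx, if_pos ((hT.cmem x).2 hx)]
  rw [h1, ← h2]
  ring

theorem pgroup_ker {ℓ : ℕ} (hℓ : ℓ.Prime) (hℓ2 : ℓ ≠ 2) {P : Subgroup G} (hP : IsPGroup ℓ P)
    (ε : G →* ℤˣ) {σ : G} (hσ : σ ∈ P) : ε σ = 1 := by
  obtain ⟨k, hk⟩ := hP ⟨σ, hσ⟩
  have h1 : σ ^ ℓ ^ k = 1 := congrArg Subtype.val hk
  rcases units_int (ε σ) with h | h
  · exact h
  · exfalso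
    have h2 : ε (σ ^ ℓ ^ k) = 1 := by rw [h1, map_one]
    rw [map_pow, h, ((hℓ.odd_of_ne_two hℓ2).pow).neg_one_pow] at h2
    exact absurd h2 (by decide)

theorem sylow_coprime {ℓ : ℕ} (hℓ : ℓ.Prime) : ∃ P : Subgroup G, IsPGroup ℓ P ∧
    ∀ n : ℕ, Nat.Coprime (ℓ ^ n) P.index := by
  have : Fact ℓ.Prime := ⟨hℓ⟩
  obtain ⟨P⟩ : Nonempty (Sylow ℓ G) := inferInstance
  refine ⟨P, P.2, fun n => ?_⟩
  refine Nat.Coprime.pow_left n ?_
  rw [Nat.Prime.coprime_iff_not_dvd hℓ]
  exact P.not_dvd_index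

end

end Pool.Agent.T9h37.PP
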