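import Pool.Agent.T9h37.PP.Blk
import Pool.Agent.T9h37.PP.Defs
import Pool.Agent.T9h37.BI.Field

/-!
# Square roots of negative integers in CM fields, and the half sets of embeddings
-/

set_option autoImplicit false
set_option linter.unusedSectionVars false
set_option linter.unusedVariables false

namespace Pool.Agent.T9h37.PP

open NumberField Pool.Agent.H204R3.CM Pool.Agent.W547.KB Pool.Agent.W547.LD Pool.Agent.W547.HR
  Pool.Agent.W495.TA Module Pool.Agent.TH117.PO Pool.Agent.W976.TA Pool.Agent.W417.TA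
  Pool.Agent.TH117.BL Pool.Agent.W495.TC Pool.Agent.W495.TB Pool.Agent.TH117.F5 Pool.Agent.N202.QR
  Pool.Agent.T9h37.BI
open scoped TensorProduct

noncomputable section

variable {L : Type} [Field L] [NumberField L] [IsCMField L] [IsGalois ℚ L]

section

variable {r : L} {d : ℕ}

theorem root_or (hr : r ^ 2 = -(d : L)) {r' : L} (hr' : r' ^ 2 = -(d : L)) : r' = r ∨ r' = -r :=
  sq_eq_sq_iff_eq_or_eq_neg.1 (hr'.trans hr.symm)

theorem root_ne (hd : 0 < d) (hr : r ^ 2 = -(d : L)) : r ≠ 0 := by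
  rintro rfl
  rw [zero_pow two_ne_zero] at hr
  have h1 : (d : L) = 0 := by
    rw [← neg_eq_zero, ← hr]
  exact hd.ne' (by exact_mod_cast h1)

theorem root_neg (hd : 0 < d) (hr : r ^ 2 = -(d : L)) : -r ≠ r := by
  intro h
  exact root_ne hd hr (self_eq_neg.1 h.symm)

theorem map_root (hr : r ^ 2 = -(d : L)) (σ : L ≃ₐ[ℚ] L) : σ r = r ∨ σ r = -r := by
  refine root_or hr ?_
  rw [← map_pow, hr, map_neg, map_natCast]

open Classical in
/-- The quadratic character of a root. -/
def rootChar (hd : 0 < d) (hr : r ^ 2 = -(d : L)) : (L ≃ₐ[ℚ] L) →* ℤˣ where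
  toFun σ := if σ r = r then 1 else -1
  map_one' := by simp
  map_mul' := by
    intro σ τ
    have h0 := root_neg hd hr
    rcases map_root hr σ with h1 | h1 <;> rcases map_root hr τ with h2 | h2
    · have h3 : (σ * τ) r = r := by
        change σ (τ r) = r
        rw [h2, h1]
      rw [if_pos h3, if_pos h1, if_pos h2, one_mul]
    · have h3 : (σ * τ) r = -r := by
        change σ (τ r) = -r
        rw [h2, map_neg, h1]
      rw [h3, h1, h2, if_neg h0, if_pos rfl, one_mul]
    · have h3 : (σ * τ) r = -r := by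
        change σ (τ r) = -r
        rw [h2, h1]
      rw [h3, h1, h2, if_neg h0, if_pos rfl, mul_one]
    · have h3 : (σ * τ) r = r := by
        change σ (τ r) = r
        rw [h2, map_neg, h1, neg_neg]
      rw [h3, h1, h2, if_pos rfl, if_neg h0]
      rfl

theorem rootChar_eq_one (hd : 0 < d) (hr : r ^ 2 = -(d : L)) (σ : L ≃ₐ[ℚ] L) :
    rootChar hd hr σ = 1 ↔ σ r = r := by
  classical
  change (if σ r = r then (1 : ℤˣ) else -1) = 1 ↔ _
  have h3 : ¬ ((-1 : ℤˣ) = 1) := by decide
  split_ifs with h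
  · exact ⟨fun _ => h, fun _ => rfl⟩
  · exact ⟨fun h1 => absurd h1 h3, fun h1 => absurd h1 h⟩

theorem cc_root (j : L →+* ℂ) (hd : 0 < d) (hr : r ^ 2 = -(d : L)) :
    (j r).re = 0 ∧ (j r).im ≠ 0 := by
  have h1 : (j r) ^ 2 = -(d : ℂ) := by rw [← map_pow, hr, map_neg, map_natCast]
  have h2 := congrArg Complex.re h1
  have h3 := congrArg Complex.im h1
  rw [pow_two, Complex.mul_re, Complex.neg_re, Complex.natCast_re] at h2
  rw [pow_two, Complex.mul_im, Complex.neg_im, Complex.natCast_im, neg_zero] at h3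
  have hd' : (0 : ℝ) < d := by exact_mod_cast hd
  have h4 : (j r).re = 0 ∨ (j r).im = 0 := by
    have h5 : (j r).re * (j r).im = 0 := by linarith
    exact mul_eq_zero.1 h5
  rcases h4 with h4 | h4
  · refine ⟨h4, fun h5 => ?_⟩
    rw [h4, h5] at h2
    simp at h2
    linarith
  · exfalso
    rw [h4] at h2
    nlinarith [mul_self_nonneg (j r).re]

/-- The embeddings of `E` with a given value at the root `δ`. -/
theorem half_root (j : L →+* ℂ) (A : CMPair) (hd : 0 < d) (hr : r ^ 2 = -(d : L)) {δ : A.E}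
    (hδ : δ ^ 2 = -(d : A.E)) :
    IsHalfSet (cc L) {φ : A.E →+* L | φ δ = r} (rootChar hd hr) := by
  have hφ : ∀ φ : A.E →+* L, φ δ = r ∨ φ δ = -r := fun φ => by
    refine root_or hr ?_
    rw [← map_pow, hδ, map_neg, map_natCast]
  have h0 := root_neg hd hr
  constructor
  · intro σ φ
    rw [rootChar_eq_one]
    change σ (φ δ) = r ↔ (σ r = r ↔ φ δ = r)
    rcases hφ φ with h1 | h1 <;> rcases map_root hr σ with h2 | h2
    · rw [h1, h2]
      tauto
    · rw [h1, h2]
      tauto
    · rw [h1, map_neg, h2]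
      tauto
    · rw [h1, map_neg, h2, neg_neg]
      tauto
  · have h1 : ¬ (rootChar hd hr (cc L) = 1) := by
      rw [rootChar_eq_one]
      intro h
      have h2 : j (cc L r) = starRingEnd ℂ (j r) := emb_cc j r
      rw [h] at h2
      have h3 := congrArg Complex.im h2
      rw [Complex.conj_im] at h3
      have h4 := (cc_root j hd hr).2
      apply h4
      linarith
    exact (units_int _).resolve_left h1

/-- The number `r` is in the image of `ψ` if it is fixed by the automorphisms which fix `ψ`. -/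
theorem mem_image {E : Type} [Field E] [NumberField E] (ψ : E →+* L) (r : L)
    (h : ∀ τ : L ≃ₐ[ℚ] L, τ • ψ = ψ → τ r = r) : ∃ x, ψ x = r := by
  let f : E →ₐ[ℚ] L := RingHom.equivRatAlgHom E L ψ
  have h1 : f.fieldRange = IntermediateField.fixedField f.fieldRange.fixingSubgroup :=
    (IsGalois.fixedField_fixingSubgroup f.fieldRange).symm
  have h2 : r ∈ f.fieldRange := by
    rw [h1, IntermediateField.mem_fixedField_iff]
    intro τ hτ
    rw [IntermediateField.mem_fixingSubgroup_iff] at hτ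
    refine h τ ?_
    ext z
    exact hτ (ψ z) ⟨z, rfl⟩
  obtain ⟨x, hx⟩ := h2
  exact ⟨x, hx⟩

/-- Different fields have different characters. -/
theorem rootChar_ne (A : CMPair) (ψ : A.E →+* L) {d d' : ℕ} (hd : 0 < d) (hd' : 0 < d')
    {r r' : L} (hr : r ^ 2 = -(d : L)) (hr' : r' ^ 2 = -(d' : L)) {δ : A.E}
    (hδ : δ ^ 2 = -(d' : A.E)) (hno : NoRoot d A.E) : rootChar hd hr ≠ rootChar hd' hr' := by
  intro h
  have h1 : ∀ σ : L ≃ₐ[ℚ] L, σ (r * r') = r * r' := by
    intro σ
    have h2 : σ r = r ↔ σ r' = r' := by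
      rw [← rootChar_eq_one hd hr, ← rootChar_eq_one hd' hr', h]
    rw [map_mul]
    rcases map_root hr σ with h3 | h3 <;> rcases map_root hr' σ with h4 | h4
    · rw [h3, h4]
    · exfalso
      have h5 := h2.1 h3
      rw [h4] at h5
      exact root_neg hd' hr' h5
    · exfalso
      have h5 := h2.2 h4
      rw [h3] at h5
      exact root_neg hd hr h5
    · rw [h3, h4]
      ring
  have h2 := (IsGalois.mem_bot_iff_fixed (F := ℚ) (r * r')).2 h1
  rw [IntermediateField.mem_bot] at h2
  obtain ⟨y, hy⟩ := h2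
  have hr0 := root_ne hd' hr'
  have h3 : ψ δ = r' ∨ ψ δ = -r' := by
    refine root_or hr' ?_
    rw [← map_pow, hδ, map_neg, map_natCast]
  have h4 : ψ δ ≠ 0 := by
    rcases h3 with h3 | h3 <;> rw [h3]
    · exact hr0
    · exact neg_ne_zero.2 hr0
  have hδ0 : δ ≠ 0 := by
    rintro rfl
    exact h4 (map_zero ψ)
  have h5 : ∃ x : A.E, ψ x = r := by
    rcases h3 with h3 | h3
    · refine ⟨(y : A.E) / δ, ?_⟩
      rw [map_div₀, map_ratCast, h3, div_eq_iff hr0, ← hy]
      rfl
    · refine ⟨-((y : A.E) / δ), ?_⟩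
      rw [map_neg, map_div₀, map_ratCast, h3, div_neg, neg_neg, div_eq_iff hr0, ← hy]
      rfl
  obtain ⟨x, hx⟩ := h5
  apply hno x
  apply ψ.injective
  rw [map_pow, hx, hr, map_neg, map_natCast]

end

end

end Pool.Agent.T9h37.PP
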